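import Pool.Agent.Lib.MP_e6fef2_lc.MainThm

/-!
# PFA(ω₁) does not imply MM(ω₁)

All the notions (`ZFC`, `PFA1`, `MM1`) are written once, for an arbitrary collection with `B`-valued
membership and equality relations (`Str B U`), in `Pool/Agent/Lib/MP_e6fef2_lc/V/Defs.lean`,
`Pool/Agent/Lib/MP_c5d73d_lc/F/Defs.lean` and `Pool/Agent/Lib/MP_100a6c_lc/Defs.lean`.
`VB B` is the Boolean-valued universe `V^B`; for `E : M → M → Prop` the structure `⟨E, Eq⟩` is the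
ordinary (two-valued) structure `(M, E)` for the language of set theory.
-/

universe u

namespace Pool.Agent.Results.MP_e6fef2_lc.PFAnotMM

open Pool.Agent.Lib.MP_100a6c_lc
open Pool.Agent.Lib.MP_c5d73d_lc.F (ZFC)
open Pool.Agent.Lib.MP_e6fef2_lc (PFA1 MM1)

/-- **Theorem.** For every (strongly) inaccessible cardinal `κ`
(1) there is a nontrivial complete Boolean algebra `B` such that all axioms of ZFC, `PFA(ω₁)` and
the negation of `MM(ω₁)` have Boolean value `⊤` in the Boolean-valued universe `V^B`;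
(2) there is a model `(M, E)` of ZFC + `PFA(ω₁)` + not `MM(ω₁)`.
In particular (the cardinality of a universe is inaccessible) there is such a model outright. -/
theorem result :
    (∀ κ : Cardinal.{u}, κ.IsInaccessible →
      (∃ (B : Type u) (_ : CompleteBooleanAlgebra B), (⊥ : B) ≠ ⊤ ∧
        ZFC (VB B) = ⊤ ∧ PFA1 (VB B) = ⊤ ∧ (MM1 (VB B))ᶜ = ⊤) ∧
      ∃ (M : Type (u + 1)) (E : M → M → Prop),
        ZFC (⟨E, Eq⟩ : Str Prop M) ∧ PFA1 (⟨E, Eq⟩ : Str Prop M) ∧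
          ¬ MM1 (⟨E, Eq⟩ : Str Prop M)) ∧
    ∃ (M : Type 2) (E : M → M → Prop),
      ZFC (⟨E, Eq⟩ : Str Prop M) ∧ PFA1 (⟨E, Eq⟩ : Str Prop M) ∧
        ¬ MM1 (⟨E, Eq⟩ : Str Prop M) := by
  refine ⟨fun κ hκ => ?_, Pool.Agent.Lib.MP_e6fef2_lc.main_absolute'⟩
  obtain ⟨⟨B, inst, h0, h1, h2, h3⟩, h4⟩ := Pool.Agent.Lib.MP_e6fef2_lc.main_full κ hκ
  exact ⟨⟨B, inst, h0, h1, h2, by rw [h3, compl_bot]⟩, h4⟩

end Pool.Agent.Results.MP_e6fef2_lc.PFAnotMM
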